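import Pool.Agent.Results.MP_da56a7_lc.MeasureMaximal

set_option autoImplicit false

/-!
# Real-valued measurable cardinals and the covering number of measure

If `κ ≤ 𝔠` is real-valued measurable and `A` is an infinite maximal almost disjoint family, then
`|A| < κ` if and only if the unit interval is not the union of `|A|` Lebesgue null sets.
-/

open MeasureTheory Set ProbabilityTheory unitInterval

namespace Pool.Agent.Results.MP_da56a7_lc.BelowCovNull

open Pool.Agent.Results.MP_da56a7_lc.MeasureMaximal

/-- The uniform law on the unit interval is the law of a function on `X`. -/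
lemma exists_uniform {X : Type} [MeasurableSpace X] {mu : Measure X} (h : IsRVM X mu)
    (hc : Cardinal.mk X ≤ Cardinal.continuum) :
    ∃ U : X → I, Measurable U ∧ mu.map U = (volume : Measure I) := by
  have hX : Nonempty (X ↪ ℝ) := by
    rw [← Cardinal.mk_real] at hc
    exact hc
  obtain ⟨e⟩ := hX
  have hmeas : ∀ {Y : Type} [MeasurableSpace Y] (g : X → Y), Measurable g :=
    fun g s _ => h.allMeasurable _
  have hprob : IsProbabilityMeasure mu := ⟨h.total⟩
  have hpe : IsProbabilityMeasure (mu.map e) := Measure.isProbabilityMeasure_map (hmeas e).aemeasurable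
  have hat : ∀ t, (mu.map e) {t} = 0 := by
    intro t
    rw [Measure.map_apply (hmeas e) (measurableSet_singleton t)]
    by_cases hex : ∃ x, e x = t
    · obtain ⟨x, rfl⟩ := hex
      have : e ⁻¹' {e x} = {x} := by
        ext y; simp
      rw [this]; exact h.points x
    · have : e ⁻¹' {t} = ∅ := by
        ext y; simp only [mem_preimage, mem_singleton_iff, mem_empty_iff_false, iff_false]
        exact fun hy => hex ⟨y, hy⟩
      rw [this]; exact measure_empty
  set nu := mu.map e with hnu
  let U : X → I := fun x => ⟨cdf nu (e x), cdf_nonneg nu _, cdf_le_one nu _⟩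
  refine ⟨U, hmeas U, ?_⟩
  have : IsProbabilityMeasure (mu.map U) := Measure.isProbabilityMeasure_map (hmeas U).aemeasurable
  refine Measure.ext_of_Iic _ _ fun a => ?_
  rw [unitInterval.volume_Iic, Measure.map_apply (hmeas U) measurableSet_Iic,
    ← map_cdf_eq hat a.1 a.2.1 a.2.2, hnu, Measure.map_apply (hmeas e)]
  · rfl
  · exact measurableSet_le (monotone_cdf nu).measurable measurable_const

/-- Fewer than `|X|` null sets do not cover the unit interval. -/
lemma not_cover {X : Type} [MeasurableSpace X] {mu : Measure X} (h : IsRVM X mu)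
    (hc : Cardinal.mk X ≤ Cardinal.continuum) {ι : Type} (hι : Cardinal.mk ι < Cardinal.mk X)
    (F : ι → Set I) (hF : ∀ i, volume (F i) = 0) : ⋃ i, F i ≠ univ := by
  intro hU
  obtain ⟨U, hUm, hUv⟩ := exists_uniform h hc
  have h1 : ∀ i, mu (U ⁻¹' F i) = 0 := by
    intro i
    have hq : Measure.QuasiMeasurePreserving U mu (volume : Measure I) :=
      ⟨hUm, by rw [hUv]⟩
    exact hq.preimage_null (hF i)
  have h2 := null_iUnion h (fun i => U ⁻¹' F i) hι h1
  rw [← preimage_iUnion, hU, preimage_univ, h.total] at h2
  exact one_ne_zero h2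

/-- If an infinite almost disjoint family is maximal, but not maximal against measures, then the
unit interval is covered by as many null sets. -/
lemma cover {A : Set (Set ℕ)} (hA : IsAD A) (hM : MeasureMaximal.IsMax A)
    (hn : ¬ IsMeasureMax A) :
    ∃ F : A → Set I, (∀ a, volume (F a) = 0) ∧ ⋃ a, F a = univ := by
  unfold IsMeasureMax at hn
  push Not at hn
  obtain ⟨m, hm, hinf, hz⟩ := hn
  have : StandardBorelSpace (Set ℕ) := inferInstanceAs (StandardBorelSpace (ℕ → Prop))
  obtain ⟨g, hg, hgm⟩ := Measure.exists_measurable_map_eq m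
  have hfin : MeasurableSet {s : Set ℕ | s.Infinite} := by
    have := measurableSet_meet univ
    simpa using this
  refine ⟨fun a => g ⁻¹' {s | (s ∩ a.1).Infinite} ∪ g ⁻¹' {s | s.Infinite}ᶜ, fun a => ?_, ?_⟩
  · refine measure_union_null ?_ ?_
    · rw [← Measure.map_apply hg (measurableSet_meet a.1), hgm]
      exact hz a.1 a.2
    · rw [← Measure.map_apply hg hfin.compl, hgm]
      exact hinf
  · refine eq_univ_of_forall fun x => ?_
    obtain ⟨a₀, ha₀⟩ := hA.1.nonempty
    by_cases hx : (g x).Infinite
    · obtain ⟨a, ha, h⟩ := hM (g x) hx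
      exact mem_iUnion.2 ⟨⟨a, ha⟩, Or.inl h⟩
    · exact mem_iUnion.2 ⟨⟨a₀, ha₀⟩, Or.inr hx⟩

/-- **Result.** Let `X` be real-valued measurable of cardinality at most the continuum. Then an
infinite maximal almost disjoint family `A` has cardinality smaller than that of `X` if and only if
the unit interval is not the union of `|A|` Lebesgue null sets. -/
theorem result : ∀ (X : Type) [MeasurableSpace X] (mu : Measure X), IsRVM X mu →
    Cardinal.mk X ≤ Cardinal.continuum →
    ∀ A : Set (Set ℕ), IsAD A → MeasureMaximal.IsMax A →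
      (Cardinal.mk A < Cardinal.mk X ↔
        ¬ ∃ F : A → Set I, (∀ a, volume (F a) = 0) ∧ ⋃ a, F a = univ) := by
  intro X _ mu h hc A hA hM
  constructor
  · rintro hlt ⟨F, hF, hU⟩
    exact not_cover h hc hlt F hF hU
  · intro hn
    by_contra hlt
    exact hn (cover hA hM fun hmm => hlt ((card_lt_iff h hc hA hM).2 hmm))

end Pool.Agent.Results.MP_da56a7_lc.BelowCovNull
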