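import Pool.Agent.Results.MP_da56a7_lc.MeasureMaximal

set_option autoImplicit false

open MeasureTheory Set

namespace Pool.Agent.Results.MP_da56a7_lc.UniversallyNull

open Pool.Agent.Results.MP_da56a7_lc.MeasureMaximal

/-- The finite sets of naturals form a null set for every law without atoms. -/
lemma ae_infinite {m : Measure (Set ℕ)} (hat : ∀ s, m {s} = 0) : ∀ᵐ s ∂m, s.Infinite := by
  have hc : ({s : Set ℕ | s.Finite}).Countable := Set.Countable.ofPred_finite
  have h0 : m {s : Set ℕ | s.Finite} = 0 := by
    rw [← Set.biUnion_of_singleton {s : Set ℕ | s.Finite}]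
    exact (measure_biUnion_null_iff hc).2 fun s _ => hat s
  rw [ae_iff]
  simpa [Set.not_infinite] using h0

/-- Families which are maximal against measures are universally null. -/
lemma null_of_measureMax {A : Set (Set ℕ)} (hA : IsAD A) (hM : IsMeasureMax A)
    (m : Measure (Set ℕ)) [IsProbabilityMeasure m] (hat : ∀ s, m {s} = 0) : m A = 0 := by
  by_contra hne
  set H := toMeasurable m A with hH
  have hHA : m H = m A := measure_toMeasurable A
  have hH0 : m H ≠ 0 := by rw [hHA]; exact hne
  have hHt : m H ≠ ⊤ := measure_ne_top m H
  let m' : Measure (Set ℕ) := (m H)⁻¹ • m.restrict H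
  have hprob : IsProbabilityMeasure m' := by
    constructor
    simp only [m', Measure.smul_apply, Measure.restrict_apply MeasurableSet.univ, univ_inter,
      smul_eq_mul]
    exact ENNReal.inv_mul_cancel hH0 hHt
  have hinf : ∀ᵐ s ∂m', s.Infinite :=
    (Measure.ae_smul_measure (ae_restrict_of_ae (ae_infinite hat)) _)
  obtain ⟨a, ha, hpos⟩ := hM m' hprob hinf
  apply hpos
  have hE := measurableSet_meet a
  simp only [m', Measure.smul_apply, smul_eq_mul]
  rw [Measure.restrict_apply hE, inter_comm, Measure.measure_toMeasurable_inter hE (measure_ne_top m A)]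
  have : m (A ∩ {s : Set ℕ | (s ∩ a).Infinite}) = 0 := by
    refine measure_mono_null ?_ (hat a)
    rintro b ⟨hb, hba⟩
    by_contra hbne
    exact hba (hA.2.2 b hb a ha hbne)
  rw [this, mul_zero]

/-- **Result.** If `X` is real-valued measurable of cardinality at most the continuum, then every
infinite maximal almost disjoint family of cardinality smaller than that of `X` is universally
null: it is a null set for every Borel probability measure which vanishes on points. -/
theorem result : ∀ (X : Type) [MeasurableSpace X] (mu : Measure X), IsRVM X mu →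
    Cardinal.mk X ≤ Cardinal.continuum →
    ∀ A : Set (Set ℕ), IsAD A → MeasureMaximal.IsMax A → Cardinal.mk A < Cardinal.mk X →
      ∀ m : Measure (Set ℕ), IsProbabilityMeasure m → (∀ s : Set ℕ, m {s} = 0) → m A = 0 := by
  intro X _ mu h hc A hA hM hlt m hm hat
  exact null_of_measureMax hA ((card_lt_iff h hc hA hM).1 hlt) m hat

end Pool.Agent.Results.MP_da56a7_lc.UniversallyNull
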